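import Mathlib

set_option autoImplicit false

namespace Pool.Agent.W779.WS

open MeasureTheory

/-- a property valid almost everywhere on the cube holds for the fractional parts of almost every
point -/
theorem ae_fract {s : ℕ} (C : Set (Fin s → ℝ))
    (hC : ∀ θ : Fin s → ℝ, (fun i => Int.fract (θ i)) ∈ C) {P : (Fin s → ℝ) → Prop}
    (h : ∀ᵐ θ : Fin s → ℝ, θ ∈ C → P θ) :
    ∀ᵐ θ : Fin s → ℝ, P (fun i => Int.fract (θ i)) := by
  have h1 : ∀ n : Fin s → ℤ, ∀ᵐ θ : Fin s → ℝ,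
      (θ - fun i => (n i : ℝ)) ∈ C → P (θ - fun i => (n i : ℝ)) := by
    intro n
    exact (measurePreserving_sub_right volume (fun i => (n i : ℝ))).quasiMeasurePreserving.ae h
  rw [← ae_all_iff] at h1
  filter_upwards [h1] with θ hθ
  have := hθ (fun i => ⌊θ i⌋)
  exact this (hC θ)

theorem ae_fract' {s : ℕ} (C : Set (Fin s → ℝ)) (hm : MeasurableSet C)
    (hC : ∀ θ : Fin s → ℝ, (fun i => Int.fract (θ i)) ∈ C) {P : (Fin s → ℝ) → Prop}
    (h : ∀ᵐ θ ∂(volume.restrict C), P θ) :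
    ∀ᵐ θ : Fin s → ℝ, P (fun i => Int.fract (θ i)) :=
  ae_fract C hC ((ae_restrict_iff' hm).1 h)

end Pool.Agent.W779.WS
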